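import Pool.Agent.Lib.P99223.Final

/-!
# Automorphism groups preserving a hierarchy of free factors are linear

Let `F_n` be the free group on the letters `of i`, `i : Fin n`, and for a set `S` of letters let `F_S`
be the free factor generated by `S`.  A hierarchy `𝒯` is a family of sets of letters which contains
the set of all letters and in which every member is a singleton or the disjoint union of two nonempty
members (for instance the leaf sets of the nodes of a full binary tree whose leaves are the letters).
We prove: every subgroup `H` of `Aut F_n` whose elements permute the conjugacy classes of the free
factors `F_S`, `S ∈ 𝒯`, embeds in some `GL_m(ℂ)`.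

For the family of all initial segments and all singletons the group `H` may be the stabiliser in `C_n`
of these conjugacy classes; it contains all inner automorphisms and all
`χ_ij : x_i ↦ x_j⁻¹ x_i x_j` with `j < i` (see `flag_le_pure` and `lin_flag` in
`Pool/Agent/Lib/P99223/Final.lean`), hence the upper triangular McCool group.

Proof.  Call a pair (free group `F`, group `Γ` acting faithfully on `F`) good if there are
representations `σ_t` of `F` and `τ_t` of `Γ` on one space `V`, `t = 0, 1, 2, …`, with
`τ_t(γ) σ_t(f) τ_t(γ)⁻¹ = σ_t(γ f)` and such that `σ_s(f)` and `σ_t(f)` have disjoint spectra for
`s ≠ t`, `f ≠ 1`.  Then `τ_0 ⊕ τ_1` is faithful.  If `(F, Γ)` and `(F', Γ')` are good, so is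
`(F * F', (F * F') ⋊ (Γ × Γ'))`: on `K ⊕ K`, `K = V ⊗ V ⊗ V' ⊗ V'`, let `F` act diagonally through the
first factor on the first copy of `K` and through the second factor on the second copy, and let
`F'` act in the same way through the last two factors with respect to another decomposition
`K ⊕ K`, depending on a parameter `l`.  By the disjointness of the spectra, the terms of highest
degree in `l` of a cyclically reduced word and of its inverse have trivially intersecting kernels,
so that no eigenvalue is independent of `l`; since all conditions are countable in number, suitable
parameters exist.  Finally an automorphism of `F * F'` which maps `F` and `F'` to conjugates of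
themselves is the product of an inner automorphism and of a pair of automorphisms of `F` and `F'`.
-/

set_option autoImplicit false

namespace Pool.Agent.Results.MP_d99223_al.HierarchyStabilisers

open Pool.Agent.P99223

/-- Every group of automorphisms of a free group of finite rank which permutes the conjugacy
classes of the free factors of a hierarchy is linear over `ℂ`. -/
theorem result (n : ℕ) (𝒯 : Set (Finset (Fin n))) (h𝒯 : Hierarchy 𝒯)
    (H : Subgroup (MulAut (FreeGroup (Fin n)))) (hH : ∀ φ ∈ H, Preserves 𝒯 φ) :
    ∃ (m : ℕ) (ρ : H →* Matrix.GeneralLinearGroup (Fin m) ℂ), Function.Injective ρ :=
  (main h𝒯 H hH).exists_fin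

end Pool.Agent.Results.MP_d99223_al.HierarchyStabilisers
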